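import Pool.Agent.Y158.KL.Core

/-!
# Kummer's theorem with data only at the prime above `ℓ` (1)
-/

set_option autoImplicit false
set_option linter.unusedSectionVars false

namespace Pool.Agent.Y158.K2

open NumberField IsDedekindDomain WithZero Pool.Agent.TH954 Pool.Agent.Y158.KL

variable {K L : Type} [Field K] [NumberField K] [Field L] [Algebra K L] {ℓ : ℕ}
  [hp : Fact ℓ.Prime] [hK : IsCyclotomicExtension {ℓ} ℚ K] {ζ : K} (hζ : IsPrimitiveRoot ζ ℓ)

/-- at every place `v` which does not divide `ℓ` there is a valuation ring of `L` such that the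
elements of `K` which have there the value of an `ℓ`-th power have valuation divisible by `ℓ` -/
def Dat (L : Type) [Field L] [Algebra K L] : Prop :=
  ∀ v : HeightOneSpectrum (𝓞 K), v ≠ lam hζ → ∃ O : ValuationSubring L,
    (∀ a : 𝓞 K, v.intValuation a = 1 → O.valuation (oo K L a) = 1) ∧
    ∀ (c : K) (g t : L), c ≠ 0 → g ≠ 0 → t ≠ 0 →
      O.valuation (algebraMap K L c * g ^ ℓ) = O.valuation t ^ ℓ →
      ∃ τ : WithZero (Multiplicative ℤ), v.valuation K c = τ ^ ℓ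

/-- The quotients are units times powers of `ζ - 1` times `ℓ`-th powers. -/
theorem cls (hodd : Odd ℓ) (hcop : (classNumber K).Coprime ℓ) (hkum : Kum ℓ K L)
    (hdat : Dat hζ L) {x z : L} {ε : (𝓞 K)ˣ}
    (hz : z ≠ 0) (h : x ^ ℓ + 1 = oo K L ε * z ^ ℓ) (hne : ∀ i : ℕ, x + zl hζ L ^ i ≠ 0)
    (i j : ℕ) :
    ∃ (u : (𝓞 K)ˣ) (a : ℤ) (g : L), g ≠ 0 ∧
      (x + zl hζ L ^ i) / (x + zl hζ L ^ j) =
        oo K L u * oo K L (hζ.toInteger - 1) ^ a * g ^ ℓ := by
  have hℓ := hp.out.pos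
  have hdiff : ∀ a b : ℕ, zl hζ L ^ a ≠ zl hζ L ^ b →
      ∃ d : 𝓞 K, d ≠ 0 ∧ zl hζ L ^ a - zl hζ L ^ b = oo K L d ∧
        Associated (hζ.toInteger - 1) d := by
    intro a b hab
    have h1 : hζ.toInteger ^ a ≠ hζ.toInteger ^ b := by
      intro h2
      apply hab
      unfold zl
      rw [← map_pow, h2, map_pow]
    have h3 := diff_assoc hζ h1
    refine ⟨_, ?_, ?_, h3⟩
    · exact sub_ne_zero.2 h1
    · unfold zl
      rw [map_sub, map_pow, map_pow]
  have hw0 : (x + zl hζ L ^ i) / (x + zl hζ L ^ j) ≠ 0 := div_ne_zero (hne i) (hne j)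
  have hε0 : ((ε : (𝓞 K)ˣ) : 𝓞 K) ≠ 0 := ε.ne_zero
  obtain ⟨c, hc, g, hg⟩ := hkum _ hw0 (fun O hO => by
    refine fermat_local O hℓ hodd (zl_prim hζ) ?_ (ε := oo K L ε) ?_ hz h i j
    · intro a b hab
      obtain ⟨d, hd, h1, -⟩ := hdiff a b hab
      rw [h1]
      exact triv_val hO ((map_ne_zero_iff _ (FaithfulSMul.algebraMap_injective (𝓞 K) K)).2 hd)
    · exact triv_val hO ((map_ne_zero_iff _ (FaithfulSMul.algebraMap_injective (𝓞 K) K)).2 hε0))
  have hg0 : g ≠ 0 := by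
    rintro rfl
    rw [zero_pow hℓ.ne', mul_zero] at hg
    exact hw0 hg
  -- the valuations outside `λ`
  have hval : ∀ v : HeightOneSpectrum (𝓞 K), v ≠ lam hζ →
      ∃ t : WithZero (Multiplicative ℤ), v.valuation K c = t ^ ℓ := by
    intro v hv
    obtain ⟨O, hO1, hO2⟩ := hdat v hv
    obtain ⟨t, ht0, ht⟩ := fermat_local O hℓ hodd (zl_prim hζ) (by
      intro a b hab
      obtain ⟨d, hd, h1, h2⟩ := hdiff a b hab
      rw [h1]
      exact hO1 _ (by rw [← lam_assoc h2, other_pi hζ hv])) (ε := oo K L ε)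
      (hO1 _ (val_unit v ε)) hz h i j
    rw [hg] at ht
    exact hO2 c g t hc hg0 ht0 ht
  obtain ⟨m, hm⟩ := exists_exp (((lam hζ).valuation K).ne_zero_iff.2 hc)
  set π : K := algebraMap (𝓞 K) K (hζ.toInteger - 1) with hπ
  have hπ0 : π ≠ 0 := (map_ne_zero_iff _ (FaithfulSMul.algebraMap_injective (𝓞 K) K)).2
    (pi_ne_zero hζ)
  obtain ⟨u, k, hk, hu⟩ := exists_unit_mul_pow hℓ hcop (c * π ^ m)
    (mul_ne_zero hc (zpow_ne_zero _ hπ0)) (by
      intro v
      by_cases hv : v = lam hζ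
      · subst hv
        refine ⟨1, ?_⟩
        rw [map_mul, map_zpow₀, hπ, (lam hζ).valuation_of_algebraMap, lam_pi, hm, one_pow,
          ← exp_zsmul, ← exp_add, ← exp_zero]
        congr 1
        simp
      · obtain ⟨t, ht⟩ := hval v hv
        refine ⟨t, ?_⟩
        rw [map_mul, map_zpow₀, hπ, v.valuation_of_algebraMap, other_pi hζ hv, one_zpow, mul_one,
          ht])
  refine ⟨u, -m, algebraMap K L k * g, mul_ne_zero ((map_ne_zero _).2 hk) hg0, ?_⟩
  rw [hg]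
  have e1 : c = algebraMap (𝓞 K) K u * k ^ ℓ * π ^ (-m) := by
    rw [← hu, mul_assoc, ← zpow_add₀ hπ0, add_neg_cancel, zpow_zero, mul_one]
  have e2 : algebraMap K L c = oo K L u * algebraMap K L k ^ ℓ *
      oo K L (hζ.toInteger - 1) ^ (-m) := by
    rw [e1, map_mul, map_mul, map_pow, map_zpow₀]
    rfl
  rw [e2]
  ring

end Pool.Agent.Y158.K2
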