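import Pool.Agent.Y158.K2.Case2
import Pool.Agent.Y158.KL.Main

/-!
# Kummer's theorem with data only at the prime above `ℓ` (3)
-/

set_option autoImplicit false
set_option linter.unusedSectionVars false

namespace Pool.Agent.Y158.K2

open NumberField IsDedekindDomain WithZero Pool.Agent.TH954 Polynomial Pool.Agent.Y158.KL

variable {K L : Type} [Field K] [NumberField K] [Field L] [Algebra K L] {ℓ : ℕ}
  [hp : Fact ℓ.Prime] [hK : IsCyclotomicExtension {ℓ} ℚ K] {ζ : K} (hζ : IsPrimitiveRoot ζ ℓ)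

theorem case1 (hℓ5 : 5 ≤ ℓ) (hcop : (classNumber K).Coprime ℓ)
    (hkum : Kum ℓ K L) (hdat : Dat hζ L) (P0 : Plc K L (Kl hζ))
    {x z : L} (hz : z ≠ 0) (h : x ^ ℓ + 1 = z ^ ℓ) {x' z' : Kl hζ}
    (hx' : P0.val x x') (hz' : P0.val z z') (hVx : V hζ x' = 1)
    (hVz : V hζ z' = 1) : V hζ (x' - 1) < 1 := by
  have hodd : Odd ℓ := hp.out.odd_of_ne_two (by omega)
  set P := P0 with hP
  have h' : x ^ ℓ + 1 = oo K L ((1 : (𝓞 K)ˣ) : 𝓞 K) * z ^ ℓ := by
    rw [Units.val_one, map_one, one_mul, h]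
  have hloc : x' ^ ℓ + 1 = z' ^ ℓ := by
    have h1 : P.val (x ^ ℓ + 1) (x' ^ ℓ + 1) := (hx'.pow ℓ).add Plc.val_one
    rw [h] at h1
    exact h1.unique (hz'.pow ℓ)
  have hVzk : ∀ k : ℕ, V hζ (zm hζ ^ k) = 1 := fun k => by rw [map_pow, V_zm, one_pow]
  have hVk : ∀ k : ℕ, V hζ (x' + zm hζ ^ k) = 1 := by
    intro k
    apply le_antisymm (Valuation.map_add_le _ hVx.le (hVzk k).le)
    have h1 := V_pow_add hζ hVx.le (hVzk k).le hodd
    rw [← pow_mul, mul_comm k ℓ, pow_mul, (zm_prim hζ).pow_eq_one, one_pow, hloc, map_pow, hVz,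
      one_pow] at h1
    exact h1
  have hne := ne_of_pow hodd (zl_prim hζ) (oo_ne (L := L) (Units.ne_zero 1)) hz h'
  have hvk : ∀ k : ℕ, P.val (x + zl hζ L ^ k) (x' + zm hζ ^ k) := fun k =>
    hx'.add ((val_zm hζ).pow k)
  have hnz : x' + zm hζ ^ 0 ≠ 0 := by
    intro h1
    have := hVk 0
    rw [h1, map_zero] at this
    exact zero_ne_one this
  obtain ⟨ξ, hξ⟩ := near_int (lam hζ) x' hVx.le 4
  change V hζ (x' - om hζ ξ) ≤ exp (-4) at hξ
  have h4 : (exp (-4) : WithZero (Multiplicative ℤ)) < 1 := exp_neg_lt_one (n := 4) (by norm_num)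
  have hVξ : V hζ (om hζ ξ) = 1 := by
    have e : om hζ ξ = x' - (x' - om hζ ξ) := by ring
    rw [e, Valuation.map_sub_eq_of_lt_left _ (by rw [hVx]; exact lt_of_le_of_lt hξ h4), hVx]
  have hVξ1 : V hζ (om hζ (ξ + 1)) = 1 := by
    have e : om hζ (ξ + 1) = (x' + zm hζ ^ 0) - (x' - om hζ ξ) := by
      rw [map_add, map_one, pow_zero]
      ring
    rw [e, Valuation.map_sub_eq_of_lt_left _ (by rw [hVk]; exact lt_of_le_of_lt hξ h4), hVk]
  have hnd : ∀ a : 𝓞 K, V hζ (om hζ a) = 1 → ¬ hζ.toInteger - 1 ∣ a := by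
    intro a ha h1
    rw [← pow_one (hζ.toInteger - 1), ← lam_dvd, ← V_om, ha] at h1
    exact absurd h1 (not_le.2 (exp_neg_lt_one (n := 1) (by norm_num)))
  have hmain := glob1 hζ hℓ5 (hnd _ hVξ) (hnd _ hVξ1) (by
    intro k
    obtain ⟨u₁, a₁, g₁, hg₁, hw₁⟩ := cls hζ hodd hcop hkum hdat hz h' hne k 0
    have hv : P.val ((x + zl hζ L ^ k) / (x + zl hζ L ^ 0))
        ((x' + zm hζ ^ k) / (x' + zm hζ ^ 0)) := by
      rw [div_eq_mul_inv, div_eq_mul_inv]
      exact (hvk k).mul ((hvk _).inv hnz)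
    obtain ⟨ρ, ρ', hρ0, hρ, hρv, hVρ⟩ := absorb hζ hg₁ hw₁ hv 0 (by
      rw [map_div₀, hVk, hVk, div_self one_ne_zero]
      simp)
    have hVρ1 : V hζ ρ' = 1 := by
      rw [hVρ]
      simp
    obtain ⟨n, hn⟩ := pow_near hζ (w := ρ') hVρ1.le
    refine ⟨u₁, n, ?_⟩
    rw [← lam_dvd, ← V_om]
    have hid : (x' + zm hζ ^ k) = om hζ u₁ * ρ' ^ ℓ * (x' + 1) := by
      have h5 : P.val ((x + zl hζ L ^ k) / (x + zl hζ L ^ 0)) (om hζ u₁ * ρ' ^ ℓ) := by
        rw [hρ]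
        exact (val_om hζ _).mul (hρv.pow ℓ)
      have h6 := hv.unique h5
      rw [div_eq_iff hnz, pow_zero] at h6
      exact h6
    have hn4 : V hζ (ρ' ^ ℓ - n) ≤ exp (-4) := by
      refine hn.trans ?_
      rw [exp_le_exp]
      omega
    have e : om hζ ((ξ + hζ.toInteger ^ k) - u₁ * n * (ξ + 1)) =
        om hζ u₁ * (ρ' ^ ℓ - n) * (x' + 1) + (om hζ u₁ * n) * (x' - om hζ ξ) -
          (x' - om hζ ξ) := by
      have hz1 : om hζ hζ.toInteger = zm hζ := rfl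
      rw [map_sub, map_add, map_mul, map_mul, map_add, map_intCast, map_one, map_pow, hz1]
      linear_combination hid
    rw [e]
    refine Valuation.map_sub_le _ (Valuation.map_add_le _ ?_ ?_) hξ
    · rw [map_mul, map_mul, V_unit, one_mul]
      refine le_trans (mul_le_of_le_one_right zero_le ?_) hn4
      have := hVk 0
      rw [pow_zero] at this
      exact this.le
    · rw [map_mul, map_mul, V_unit, one_mul]
      refine le_trans (mul_le_of_le_one_left zero_le (V_intCast hζ n)) hξ)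
  rw [← pow_one (hζ.toInteger - 1), ← lam_dvd, ← V_om, map_sub, map_one] at hmain
  have e : x' - 1 = (x' - om hζ ξ) + (om hζ ξ - 1) := by ring
  rw [e]
  exact Valuation.map_add_lt _ (lt_of_le_of_lt hξ h4)
    (lt_of_le_of_lt hmain (exp_neg_lt_one (n := 1) (by norm_num)))

/-- the first case for `ℓ ≥ 5` -/
theorem first5 (hℓ5 : 5 ≤ ℓ) (hcop : (classNumber K).Coprime ℓ)
    (hkum : Kum ℓ K L) (hdat : Dat hζ L) (P0 : Plc K L (Kl hζ))
    {x z : L} (h : x ^ ℓ + 1 = z ^ ℓ) {x' z' : Kl hζ}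
    (hx' : P0.val x x') (hz' : P0.val z z') (hVx : V hζ x' = 1)
    (hVz : V hζ z' = 1) : False := by
  have hodd : Odd ℓ := hp.out.odd_of_ne_two (by omega)
  set P := P0 with hP
  have hz'0 : z' ≠ 0 := by
    rintro rfl
    rw [map_zero] at hVz
    exact zero_ne_one hVz
  have hz : z ≠ 0 := by
    rintro rfl
    exact hz'0 (hz'.unique Plc.val_zero)
  have hx'0 : x' ≠ 0 := by
    rintro rfl
    rw [map_zero] at hVx
    exact zero_ne_one hVx
  have hx : x ≠ 0 := by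
    rintro rfl
    exact hx'0 (hx'.unique Plc.val_zero)
  have hloc : x' ^ ℓ + 1 = z' ^ ℓ := by
    have h1 : P.val (x ^ ℓ + 1) (x' ^ ℓ + 1) := (hx'.pow ℓ).add Plc.val_one
    rw [h] at h1
    exact h1.unique (hz'.pow ℓ)
  have h1 := case1 hζ hℓ5 hcop hkum hdat P0 hz h hx' hz' hVx hVz
  have h2 := case1 hζ hℓ5 hcop hkum hdat P0 (x := -z⁻¹) (z := x * z⁻¹) (x' := -z'⁻¹)
    (z' := x' * z'⁻¹) (mul_ne_zero hx (inv_ne_zero hz)) (by
      rw [Odd.neg_pow hodd, mul_pow, inv_pow]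
      have hzl : z ^ ℓ ≠ 0 := pow_ne_zero _ hz
      field_simp
      linear_combination -h) (by
      have := Plc.val_zero.sub (hz'.inv hz'0)
      rwa [zero_sub, zero_sub] at this) (hx'.mul (hz'.inv hz'0)) (by
      rw [Valuation.map_neg, map_inv₀, hVz, inv_one]) (by
      rw [map_mul, map_inv₀, hVx, hVz, inv_one, mul_one])
  have h3 : V hζ (z' + 1) < 1 := by
    have e : z' + 1 = -z' * (-z'⁻¹ - 1) := by
      field_simp
      ring
    rw [e, map_mul, Valuation.map_neg, hVz, one_mul]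
    exact h2
  have h4 : V hζ ((3 : ℤ) : Kl hζ) < 1 := by
    have e2 : ((3 : ℤ) : Kl hζ) = (z' ^ ℓ + 1 ^ ℓ) - (x' ^ ℓ - 1 ^ ℓ) := by
      rw [one_pow]
      push_cast
      linear_combination hloc
    rw [e2]
    refine Valuation.map_sub_lt _ ?_ ?_
    · exact lt_of_le_of_lt (V_pow_add hζ hVz.le (by rw [map_one]) hodd) h3
    · exact lt_of_le_of_lt (V_pow_sub hζ hVx.le (by rw [map_one]) ℓ) h1
  rw [V_intCast_lt] at h4
  have h5 := Int.le_of_dvd (by norm_num) h4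
  omega

/-- **Kummer's theorem.** For a point of the Fermat curve over `L` the value at the prime above `ℓ`
is a trivial point. -/
theorem core_main (hodd : Odd ℓ) (hcop : (classNumber K).Coprime ℓ) (hKL : KLem ℓ K)
    (hkum : Kum ℓ K L) (hdat : Dat hζ L) (P0 : Plc K L (Kl hζ))
    {X Y : L} (h : X ^ ℓ + Y ^ ℓ = 1) :
    P0.val X 0 ∨ P0.val Y 0 ∨ (X ≠ 0 ∧ P0.val X⁻¹ 0) := by
  set P := P0 with hP
  have hℓ := hp.out.pos
  by_cases hX0 : X = 0
  · left
    rw [hX0]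
    exact Plc.val_zero
  by_cases hY0 : Y = 0
  · right; left
    rw [hY0]
    exact Plc.val_zero
  by_cases hXW : X ∈ P.W
  swap
  · right; right
    exact ⟨hX0, Plc.val_inv_of_notMem hXW⟩
  obtain ⟨x', hx'⟩ := Plc.val_of_mem hXW
  have hYW : Y ∈ P.W := by
    apply Plc.mem_of_pow_mem hℓ
    have e : Y ^ ℓ = 1 - X ^ ℓ := by linear_combination h
    rw [e]
    exact sub_mem (one_mem _) (pow_mem hXW _)
  obtain ⟨y', hy'⟩ := Plc.val_of_mem hYW
  by_cases hx0 : x' = 0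
  · left
    rwa [hx0] at hx'
  by_cases hy0 : y' = 0
  · right; left
    rwa [hy0] at hy'
  exfalso
  have hloc : x' ^ ℓ + y' ^ ℓ = 1 := by
    have h1 : P.val (X ^ ℓ + Y ^ ℓ) (x' ^ ℓ + y' ^ ℓ) := (hx'.pow ℓ).add (hy'.pow ℓ)
    rw [h] at h1
    exact h1.unique Plc.val_one
  have hVx0 : V hζ x' ≠ 0 := (Valuation.ne_zero_iff _).2 hx0
  have hVy0 : V hζ y' ≠ 0 := (Valuation.ne_zero_iff _).2 hy0
  -- the second case
  have hcase2 : ∀ {x z : L} {x₁ z₁ : Kl hζ}, z ≠ 0 → x ^ ℓ + 1 = z ^ ℓ → P.val x x₁ →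
      P.val z z₁ → z₁ ≠ 0 → V hζ z₁ < 1 → False := by
    intro x z x₁ z₁ hz hxz hx₁ hz₁ hz₁0 hV
    obtain ⟨m, hm⟩ := exists_exp ((Valuation.ne_zero_iff (V hζ)).2 hz₁0)
    have hm0 : m < 0 := by
      rw [hm, ← exp_zero, exp_lt_exp] at hV
      exact hV
    obtain ⟨n, hn⟩ : ∃ n : ℕ, m = -(n : ℤ) := ⟨(-m).toNat, by omega⟩
    refine case2 hζ hodd hcop hKL hkum hdat P0 n (by omega) (ε := 1) hz ?_ hx₁ hz₁ ?_
    · rw [hxz, Units.val_one, map_one, one_mul]
    · rw [hm, hn]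
  rcases lt_trichotomy (V hζ x') 1 with hlt | heq | hgt
  · exact hcase2 (x := -Y) (z := X) (x₁ := -y') hX0 (by
      rw [Odd.neg_pow hodd]
      linear_combination -h) (by
      have := Plc.val_zero.sub hy'
      rwa [zero_sub, zero_sub] at this) hx' hx0 hlt
  · have hy1 : V hζ y' ≤ 1 := by
      have e : y' ^ ℓ = 1 - x' ^ ℓ := by linear_combination hloc
      have h2 : V hζ (y' ^ ℓ) ≤ 1 := by
        rw [e]
        exact Valuation.map_sub_le _ (by rw [map_one]) (by rw [map_pow, heq, one_pow])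
      rw [map_pow] at h2
      exact (pow_le_one_iff_of_nonneg zero_le hℓ.ne').1 h2
    rcases hy1.lt_or_eq with hy2 | hy2
    · exact hcase2 (x := -X) (z := Y) (x₁ := -x') hY0 (by
        rw [Odd.neg_pow hodd]
        linear_combination -h) (by
        have := Plc.val_zero.sub hx'
        rwa [zero_sub, zero_sub] at this) hy' hy0 hy2
    · have hq : (X * Y⁻¹) ^ ℓ + 1 = (Y⁻¹) ^ ℓ := by
        rw [mul_pow, inv_pow]
        have : Y ^ ℓ ≠ 0 := pow_ne_zero _ hY0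
        field_simp
        linear_combination h
      have hvx := hx'.mul (hy'.inv hy0)
      have hvz := hy'.inv hy0
      have h5 : V hζ (x' * y'⁻¹) = 1 := by rw [map_mul, map_inv₀, heq, hy2, inv_one, one_mul]
      have h6 : V hζ y'⁻¹ = 1 := by rw [map_inv₀, hy2, inv_one]
      rcases Nat.lt_or_ge ℓ 5 with hl | hl
      · have h3 : ℓ = 3 := by
          have h2 := hp.out.two_le
          obtain ⟨t, ht⟩ := hodd
          omega
        have hq' : (x' * y'⁻¹) ^ ℓ + 1 = (y'⁻¹) ^ ℓ := by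
          have h7 : P.val ((X * Y⁻¹) ^ ℓ + 1) ((x' * y'⁻¹) ^ ℓ + 1) :=
            (hvx.pow ℓ).add Plc.val_one
          rw [hq] at h7
          exact h7.unique (hvz.pow ℓ)
        exact first3 hζ h3 hq' h5 h6
      · exact first5 hζ hl hcop hkum hdat P0 hq hvx hvz h5 h6
  · have hy1 : 1 < V hζ y' := by
      have e : y' ^ ℓ = 1 - x' ^ ℓ := by linear_combination hloc
      have h2 : V hζ (y' ^ ℓ) = V hζ x' ^ ℓ := by
        rw [e, Valuation.map_sub_eq_of_lt_right _ (by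
          rw [map_one, map_pow]
          exact one_lt_pow₀ hgt hℓ.ne'), map_pow]
      rw [map_pow] at h2
      by_contra hcon
      have h3 : V hζ y' ^ ℓ ≤ 1 := pow_le_one₀ zero_le (not_lt.1 hcon)
      rw [h2] at h3
      exact absurd h3 (not_le.2 (one_lt_pow₀ hgt hℓ.ne'))
    refine hcase2 (x := X * Y⁻¹) (z := Y⁻¹) (inv_ne_zero hY0) ?_ (hx'.mul (hy'.inv hy0))
      (hy'.inv hy0) (inv_ne_zero hy0) ?_
    · rw [mul_pow, inv_pow]
      have : Y ^ ℓ ≠ 0 := pow_ne_zero _ hY0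
      field_simp
      linear_combination h
    · rw [map_inv₀]
      exact inv_lt_one_of_one_lt₀ hy1

end Pool.Agent.Y158.K2
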