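import Pool.Agent.Y158.K2.Core
import Pool.Agent.Y158.KL.Case2c

/-!
# Kummer's theorem with data only at the prime above `ℓ` (2)
-/

set_option autoImplicit false
set_option linter.unusedSectionVars false

namespace Pool.Agent.Y158.K2

open NumberField IsDedekindDomain WithZero Pool.Agent.TH954 Polynomial Pool.Agent.Y158.KL

variable {K L : Type} [Field K] [NumberField K] [Field L] [Algebra K L] {ℓ : ℕ}
  [hp : Fact ℓ.Prime] [hK : IsCyclotomicExtension {ℓ} ℚ K] {ζ : K} (hζ : IsPrimitiveRoot ζ ℓ)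

/-- one step of the descent -/
theorem step (hodd : Odd ℓ) (hcop : (classNumber K).Coprime ℓ) (hKL : KLem ℓ K)
    (hkum : Kum ℓ K L) (hdat : Dat hζ L) (P0 : Plc K L (Kl hζ))
    {x z : L} {ε : (𝓞 K)ˣ} (hz : z ≠ 0) (h : x ^ ℓ + 1 = oo K L ε * z ^ ℓ)
    {x' z' : Kl hζ} (hx' : P0.val x x') (hz' : P0.val z z')
    {m : ℤ} (hm : 1 ≤ m) (hVz : V hζ z' = exp (-m)) (hVx : V hζ (x' + 1) ≤ exp (-2)) :
    2 ≤ m ∧ ∃ (X Z : L) (ε₁ : (𝓞 K)ˣ) (X' Z' : Kl hζ), Z ≠ 0 ∧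
      X ^ ℓ + 1 = oo K L ε₁ * Z ^ ℓ ∧ P0.val X X' ∧ P0.val Z Z' ∧
      V hζ Z' = exp (-(m - 1)) := by
  have hℓ := hp.out.pos
  have hℓ1 : 1 < ℓ := hp.out.one_lt
  have hℓ3 : 3 ≤ ℓ := by
    obtain ⟨t, ht⟩ := hodd
    omega
  set P := P0 with hP
  have hloc : x' ^ ℓ + 1 = om hζ ε * z' ^ ℓ := by
    have h1 : P.val (x ^ ℓ + 1) (x' ^ ℓ + 1) := (hx'.pow ℓ).add Plc.val_one
    rw [h] at h1
    exact h1.unique ((val_om hζ _).mul (hz'.pow ℓ))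
  obtain ⟨hV1, hVk⟩ := V_one hζ hodd (V_unit hζ ε) hloc hVz hVx
  have hm2 : 2 ≤ m := by
    rw [hV1, exp_le_exp] at hVx
    by_contra hcon
    have : m = 1 := by omega
    subst this
    omega
  refine ⟨hm2, ?_⟩
  have hne := ne_of_pow hodd (zl_prim hζ) (oo_ne (L := L) ε.ne_zero) hz h
  have hζ1 : zm hζ ^ 1 ≠ 1 := by
    rw [pow_one]
    exact (zm_prim hζ).ne_one hℓ1
  have hζ2 : zm hζ ^ (ℓ - 1) ≠ 1 := by
    intro h1
    have h2 := (zm_prim hζ).dvd_of_pow_eq_one _ h1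
    have := Nat.le_of_dvd (by omega) h2
    omega
  have hvk : ∀ k : ℕ, P.val (x + zl hζ L ^ k) (x' + zm hζ ^ k) := fun k =>
    hx'.add ((val_zm hζ).pow k)
  have hnz2 : x' + zm hζ ^ (ℓ - 1) ≠ 0 := by
    intro h1
    have := hVk _ hζ2
    rw [h1, map_zero] at this
    exact exp_ne_zero this.symm
  have hvq : ∀ k : ℕ, P.val ((x + zl hζ L ^ k) / (x + zl hζ L ^ (ℓ - 1)))
      ((x' + zm hζ ^ k) / (x' + zm hζ ^ (ℓ - 1))) := by
    intro k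
    rw [div_eq_mul_inv, div_eq_mul_inv]
    exact (hvk k).mul ((hvk _).inv hnz2)
  obtain ⟨u₁, a₁, g₁, hg₁, hw₁⟩ := cls hζ hodd hcop hkum hdat hz h hne 1 (ℓ - 1)
  obtain ⟨u₂, a₂, g₂, hg₂, hw₂⟩ := cls hζ hodd hcop hkum hdat hz h hne 0 (ℓ - 1)
  obtain ⟨α, α', hα0, hα, hαv, hVα⟩ := absorb hζ hg₁ hw₁ (hvq 1) 0 (by
    rw [map_div₀, hVk 1 hζ1, hVk _ hζ2, div_self exp_ne_zero]
    simp)
  obtain ⟨β, β', hβ0, hβ, hβv, hVβ⟩ := absorb hζ hg₂ hw₂ (hvq 0) (m - 1) (by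
    rw [map_div₀, hVk _ hζ2, pow_zero, hV1, ← exp_sub]
    congr 1
    ring)
  have hαv1 : V hζ α' = 1 := by
    rw [hVα]
    simp
  -- the identity
  have hid : oo K L u₁ * α ^ ℓ + zl hζ L = (1 + zl hζ L) * (oo K L u₂ * β ^ ℓ) := by
    rw [← hα, ← hβ]
    have hzl : zl hζ L * zl hζ L ^ (ℓ - 1) = 1 := by
      rw [← pow_succ', Nat.sub_add_cancel hℓ, (zl_prim hζ).pow_eq_one]
    have hn2 := hne (ℓ - 1)
    rw [pow_one, pow_zero]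
    field_simp
    linear_combination hzl
  have hidv : om hζ u₁ * α' ^ ℓ + zm hζ = (1 + zm hζ) * (om hζ u₂ * β' ^ ℓ) := by
    have h1 : P.val (oo K L u₁ * α ^ ℓ + zl hζ L) (om hζ u₁ * α' ^ ℓ + zm hζ) :=
      ((val_om hζ _).mul (hαv.pow ℓ)).add (val_zm hζ)
    rw [hid] at h1
    exact h1.unique ((Plc.val_one.add (val_zm hζ)).mul ((val_om hζ _).mul (hβv.pow ℓ)))
  obtain ⟨n, hn⟩ := pow_near hζ (w := α') hαv1.le
  have hVzm1 : V hζ (1 + zm hζ) ≤ 1 :=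
    Valuation.map_add_le _ (by rw [map_one]) (V_zm hζ).le
  have hdvd : (ℓ : 𝓞 K) ∣ u₁ * n + hζ.toInteger := by
    apply ell_dvd_of hζ
    rw [← V_om]
    have e : om hζ ((u₁ : 𝓞 K) * n + hζ.toInteger) =
        (1 + zm hζ) * (om hζ u₂ * β' ^ ℓ) - om hζ u₁ * (α' ^ ℓ - n) := by
      rw [← hidv, map_add, map_mul, map_intCast]
      change _ + zm hζ = _
      ring
    rw [e]
    refine Valuation.map_sub_le _ ?_ ?_
    · rw [map_mul, map_mul, V_unit, one_mul, map_pow, hVβ, exp_pow]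
      refine le_trans (mul_le_of_le_one_left zero_le hVzm1) ?_
      rw [exp_le_exp]
      have h5 : ((ℓ - 1 : ℕ) : ℤ) = ℓ - 1 := by omega
      rw [h5]
      nlinarith
    · rw [map_mul, V_unit, one_mul]
      exact hn
  -- the root of unity as a unit
  set zu : (𝓞 K)ˣ := (hζ.toInteger_isPrimitiveRoot.isUnit hℓ.ne').unit with hzu
  have hzu' : (zu : 𝓞 K) = hζ.toInteger := rfl
  obtain ⟨η, hη⟩ := hKL (zu * u₁⁻¹) (-n) (by
    obtain ⟨t, ht⟩ := hdvd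
    refine ⟨t * ((u₁⁻¹ : (𝓞 K)ˣ) : 𝓞 K), ?_⟩
    have h1 : ((u₁ : (𝓞 K)ˣ) : 𝓞 K) * ((u₁⁻¹ : (𝓞 K)ˣ) : 𝓞 K) = 1 := Units.mul_inv u₁
    push_cast
    rw [hzu']
    linear_combination ((u₁⁻¹ : (𝓞 K)ˣ) : 𝓞 K) * ht - (n : 𝓞 K) * h1)
  have hunit : IsUnit (1 + hζ.toInteger) := by
    have h1 := hζ.toInteger_isPrimitiveRoot.geom_sum_isUnit (j := 2) (by omega)
      ((Nat.coprime_primes Nat.prime_two hp.out).2 (by omega))
    have h2 : ∑ i ∈ Finset.range 2, hζ.toInteger ^ i = 1 + hζ.toInteger := by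
      rw [Finset.sum_range_succ, Finset.sum_range_one, pow_zero, pow_one]
    rwa [h2] at h1
  set wu : (𝓞 K)ˣ := hunit.unit with hwu
  have hwu' : (wu : 𝓞 K) = 1 + hζ.toInteger := rfl
  have hηL : oo K L η ≠ 0 := oo_ne η.ne_zero
  have hηm : om hζ η ≠ 0 := om_ne hζ η.ne_zero
  have hu₁η : oo K L u₁ * oo K L η ^ ℓ = zl hζ L := by
    unfold zl
    rw [← map_pow, ← map_mul]
    congr 1
    have h1 := congrArg (fun w : (𝓞 K)ˣ => (w : 𝓞 K)) hη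
    have h2 : ((u₁ : (𝓞 K)ˣ) : 𝓞 K) * ((u₁⁻¹ : (𝓞 K)ˣ) : 𝓞 K) = 1 := Units.mul_inv u₁
    push_cast at h1
    rw [hzu'] at h1
    rw [← h1]
    linear_combination hζ.toInteger * h2
  refine ⟨α / oo K L η, β / oo K L η, wu * u₂ * u₁⁻¹, α' / om hζ η, β' / om hζ η,
    div_ne_zero hβ0 hηL, ?_, ?_, ?_, ?_⟩
  · have hu₁0 : oo K L u₁ ≠ 0 := oo_ne u₁.ne_zero
    have e1 : oo K L ((wu * u₂ * u₁⁻¹ : (𝓞 K)ˣ) : 𝓞 K) =
        (1 + zl hζ L) * oo K L u₂ / oo K L u₁ := by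
      rw [eq_div_iff hu₁0, ← map_mul]
      have h2 : ((u₁ : (𝓞 K)ˣ) : 𝓞 K) * ((u₁⁻¹ : (𝓞 K)ˣ) : 𝓞 K) = 1 := Units.mul_inv u₁
      have e2 : ((wu * u₂ * u₁⁻¹ : (𝓞 K)ˣ) : 𝓞 K) * u₁ = (1 + hζ.toInteger) * u₂ := by
        push_cast
        rw [hwu']
        linear_combination (1 + hζ.toInteger) * (u₂ : 𝓞 K) * h2
      rw [e2, map_mul, map_add, map_one]
      rfl
    rw [e1, div_pow, div_pow]
    field_simp
    linear_combination hid + (0 : L) * hu₁η + hu₁η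
  · rw [div_eq_mul_inv, div_eq_mul_inv]
    exact hαv.mul ((val_om hζ _).inv hηm)
  · rw [div_eq_mul_inv, div_eq_mul_inv]
    exact hβv.mul ((val_om hζ _).inv hηm)
  · rw [map_div₀, V_unit, div_one, hVβ]

theorem red_step (hodd : Odd ℓ) (hcop : (classNumber K).Coprime ℓ) (hKL : KLem ℓ K)
    (hkum : Kum ℓ K L) (hdat : Dat hζ L) (P0 : Plc K L (Kl hζ))
    {x z : L} {ε : (𝓞 K)ˣ} (hz : z ≠ 0) (h : x ^ ℓ + 1 = oo K L ε * z ^ ℓ)
    {x' z' : Kl hζ} (hx' : P0.val x x') (hz' : P0.val z z')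
    {m : ℤ} (hm : 1 ≤ m) (hVz : V hζ z' = exp (-m)) :
    2 ≤ m ∧ ∃ (X Z : L) (ε₁ : (𝓞 K)ˣ) (X' Z' : Kl hζ), Z ≠ 0 ∧
      X ^ ℓ + 1 = oo K L ε₁ * Z ^ ℓ ∧ P0.val X X' ∧ P0.val Z Z' ∧
      V hζ Z' = exp (-(m - 1)) := by
  set P := P0 with hP
  have hloc : x' ^ ℓ + 1 = om hζ ε * z' ^ ℓ := by
    have h1 : P.val (x ^ ℓ + 1) (x' ^ ℓ + 1) := (hx'.pow ℓ).add Plc.val_one
    rw [h] at h1
    exact h1.unique ((val_om hζ _).mul (hz'.pow ℓ))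
  obtain ⟨-, k, hk⟩ := near_root hζ hodd (V_unit hζ ε) hloc hm hVz
  have hzm0 : zm hζ ^ k ≠ 0 := pow_ne_zero _ ((zm_prim hζ).ne_zero hp.out.ne_zero)
  have hVzk : V hζ (zm hζ ^ k) = 1 := by rw [map_pow, V_zm, one_pow]
  refine step hζ hodd hcop hKL hkum hdat P0 (ε := ε) (x := x / zl hζ L ^ k) (x' := x' / zm hζ ^ k) hz ?_ ?_ hz'
    hm hVz ?_
  · rw [div_pow, ← pow_mul, mul_comm k ℓ, pow_mul, (zl_prim hζ).pow_eq_one, one_pow, div_one, h]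
  · rw [div_eq_mul_inv, div_eq_mul_inv]
    exact hx'.mul (((val_zm hζ).pow k).inv hzm0)
  · have e : x' / zm hζ ^ k + 1 = (x' + zm hζ ^ k) / zm hζ ^ k := by
      field_simp
    rw [e, map_div₀, hVzk, div_one]
    exact hk

/-- There are no points in the second case with a nonzero value of `z`. -/
theorem case2 (hodd : Odd ℓ) (hcop : (classNumber K).Coprime ℓ) (hKL : KLem ℓ K)
    (hkum : Kum ℓ K L) (hdat : Dat hζ L) (P0 : Plc K L (Kl hζ))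
    (m : ℕ) (hm : 1 ≤ m) :
    ∀ {x z : L} {ε : (𝓞 K)ˣ}, z ≠ 0 → x ^ ℓ + 1 = oo K L ε * z ^ ℓ →
    ∀ {x' z' : Kl hζ}, P0.val x x' → P0.val z z' →
      V hζ z' = exp (-(m : ℤ)) → False := by
  induction m, hm using Nat.le_induction with
  | base =>
    intro x z ε hz h x' z' hx' hz' hV
    obtain ⟨h1, -⟩ := red_step hζ hodd hcop hKL hkum hdat P0 hz h hx' hz' (m := 1) le_rfl
      (by simpa using hV)
    omega
  | succ m hm ih =>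
    intro x z ε hz h x' z' hx' hz' hV
    obtain ⟨-, X, Z, ε₁, X', Z', h1, h2, h3, h4, h5⟩ :=
      red_step hζ hodd hcop hKL hkum hdat P0 hz h hx' hz' (m := ((m + 1 : ℕ) : ℤ)) (by omega) hV
    refine ih h1 h2 h3 h4 ?_
    rw [h5]
    congr 1
    push_cast
    ring

end Pool.Agent.Y158.K2
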